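import Pool.Agent.L0h98.RF.Def

set_option autoImplicit false

/-!
# Project RF, module CON: contraction of the paths
-/

namespace Pool.Agent.L0h85.RF

open Finset Classical
open Pool.Agent.L0h98.RF
open Pool.Agent.H160R2.HF

/-- summing over the fibres of a map into a sigma type -/
theorem con_fib {V X : Type} [DecidableEq V] [Fintype X] (k : V → ℕ) (τ : X → Σ v, Fin (k v)) (ψ : X → ℤ) (v : V) :
    ∑ j : Fin (k v), ∑ x with τ x = ⟨v, j⟩, ψ x = ∑ x with (τ x).1 = v, ψ x := by
  simp only [Finset.sum_filter]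
  rw [Finset.sum_comm]
  refine Finset.sum_congr rfl fun x _ => ?_
  rcases h : τ x with ⟨w, i⟩
  by_cases hw : w = v
  · subst hw
    simp
  · have : ∀ j : Fin (k v), ¬ ((⟨w, i⟩ : Σ v, Fin (k v)) = ⟨v, j⟩) := by
      intro j hj
      exact hw (congrArg Sigma.fst hj)
    simp [this, hw]

theorem t_CON : S_CON := by
  intro V E _ _ _ _ B h3 lab ⟨ψ, hψ, hb⟩
  refine ⟨fun e => ψ (Sum.inl e), ?_, fun e => hb _⟩
  intro v
  have h1 := con_fib (fun v => B.deg univ v - 2) (Ex B h3 lab).t ψ v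
  have h2 := con_fib (fun v => B.deg univ v - 2) (Ex B h3 lab).h ψ v
  have key : ∑ x with ((Ex B h3 lab).t x).1 = v, ψ x =
      ∑ x with ((Ex B h3 lab).h x).1 = v, ψ x := by
    rw [← h1, ← h2]
    refine Finset.sum_congr rfl fun j _ => ?_
    have := hψ ⟨v, j⟩
    convert this using 2 <;> congr
  simp only [Finset.sum_filter, Fintype.sum_sum_type] at key
  have e1 : ∀ y : Σ v, Fin (B.deg univ v - 3), ((Ex B h3 lab).t (Sum.inr y)).1 = y.1 := fun y => rfl
  have e2 : ∀ y : Σ v, Fin (B.deg univ v - 3), ((Ex B h3 lab).h (Sum.inr y)).1 = y.1 := fun y => rfl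
  have e3 : ∀ e : E, ((Ex B h3 lab).t (Sum.inl e)).1 = B.t e := fun y => rfl
  have e4 : ∀ e : E, ((Ex B h3 lab).h (Sum.inl e)).1 = B.h e := fun y => rfl
  simp only [e1, e2, e3, e4] at key
  have key2 := add_right_cancel key
  simp only [Finset.sum_filter]
  convert key2 using 2 <;> congr

end Pool.Agent.L0h85.RF
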