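import Pool.Agent.L0h98.RF.Def

set_option autoImplicit false

/-!
# Project RF, module ONE: sets with `s` half-edges and `e` inner edges
-/

namespace Pool.Agent.L0h85.RF

open Finset Classical
open Pool.Agent.L0h98.GS (Hf eC)
open Pool.Agent.N404.LF (cnt)
open Pool.Agent.L0h98.RF

/-- `C(2m, 2e) ≥ C(m, e)^2` -/
lemma one_choose (m e : ℕ) : m.choose e * m.choose e ≤ (2 * m).choose (2 * e) := by
  rw [show 2 * m = m + m by ring, Nat.add_choose_eq]
  have h : ((e, e) : ℕ × ℕ) ∈ antidiagonal (2 * e) := by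
    rw [Finset.HasAntidiagonal.mem_antidiagonal]
    show e + e = 2 * e
    ring
  exact Finset.single_le_sum (f := fun ij : ℕ × ℕ => m.choose ij.1 * m.choose ij.2)
    (fun _ _ => Nat.zero_le _) h

/-- one set -/
lemma one_set' (hI : S_INS) {V : Type} {m : ℕ} (a : Hf m → V) (X : Finset V) (s c e : ℕ)
    (hs : s = 2 * e + c) (hsm : s ≤ m) (hX : sz a X = s) :
    m.choose e * (univ.filter fun π : Equiv.Perm (Hf m) => e ≤ eC a π X).card ≤
      s.choose c * (2 * m).factorial := by
  have hem : e ≤ m := by omega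
  have h1 := hI V m a X e hem
  set N := (univ.filter fun π : Equiv.Perm (Hf m) => e ≤ eC a π X).card with hN
  rw [hX, Nat.descFactorial_eq_factorial_mul_choose, Nat.descFactorial_eq_factorial_mul_choose]
    at h1
  have h2 : s.choose (2 * e) = s.choose c := by
    rw [hs]
    exact Nat.choose_symm_add
  rw [h2] at h1
  have hc : 0 < m.choose e := Nat.choose_pos hem
  have hf : 0 < (2 * e).factorial := Nat.factorial_pos _
  have h3 : (2 * e).factorial * m.choose e * (m.choose e * N) ≤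
      (2 * e).factorial * m.choose e * (s.choose c * (2 * m).factorial) := by
    calc (2 * e).factorial * m.choose e * (m.choose e * N)
        = (2 * e).factorial * (m.choose e * m.choose e) * N := by ring
      _ ≤ (2 * e).factorial * (2 * m).choose (2 * e) * N :=
          Nat.mul_le_mul_right _ (Nat.mul_le_mul_left _ (one_choose m e))
      _ ≤ _ := h1
      _ = _ := by ring
  exact Nat.le_of_mul_le_mul_left h3 (Nat.mul_pos hf hc)

theorem t_ONE (hI : S_INS) (hN : S_NUM) (hB : S_BIN) : S_ONE := by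
  intro V _ m a ha s c e hs he hsm
  set M := (2 * m).factorial with hM
  have hem : e ≤ m := by omega
  have h2e : 2 * e ≤ m := by omega
  have hme : (0 : ℝ) < (m : ℝ) - e := by
    have : (e : ℝ) + 1 ≤ m := by
      have : e + 1 ≤ m := by omega
      exact_mod_cast this
    linarith
  have he0 : (0 : ℝ) < e := by exact_mod_cast he
  set y : ℝ := (e : ℝ) / ((m : ℝ) - e) with hy
  have hy0 : 0 < y := div_pos he0 hme
  have hy1 : y ≤ 1 := by
    rw [hy, div_le_one hme]
    have : (2 : ℝ) * e ≤ m := by exact_mod_cast h2e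
    linarith
  set Ns := (univ.filter fun X : Finset V => sz a X = s).card with hNs
  have hc : (0 : ℝ) < (m.choose e : ℝ) := by exact_mod_cast Nat.choose_pos hem
  -- the union bound
  have h1 : m.choose e * (univ.filter fun π : Equiv.Perm (Hf m) =>
      ∃ X : Finset V, sz a X = s ∧ e ≤ eC a π X).card ≤ Ns * (s.choose c * M) := by
    calc m.choose e * (univ.filter fun π : Equiv.Perm (Hf m) =>
        ∃ X : Finset V, sz a X = s ∧ e ≤ eC a π X).card
        ≤ m.choose e * ∑ X ∈ univ.filter (fun X : Finset V => sz a X = s),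
            (univ.filter fun π : Equiv.Perm (Hf m) => e ≤ eC a π X).card := by
          refine Nat.mul_le_mul_left _ ((card_le_card ?_).trans card_biUnion_le)
          intro π hπ
          obtain ⟨X, hX, hX1⟩ := (mem_filter.1 hπ).2
          rw [mem_biUnion]
          exact ⟨X, mem_filter.2 ⟨mem_univ _, hX⟩, mem_filter.2 ⟨mem_univ _, hX1⟩⟩
      _ = ∑ X ∈ univ.filter (fun X : Finset V => sz a X = s), m.choose e *
            (univ.filter fun π : Equiv.Perm (Hf m) => e ≤ eC a π X).card := mul_sum _ _ _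
      _ ≤ ∑ X ∈ univ.filter (fun X : Finset V => sz a X = s), s.choose c * M :=
          sum_le_sum fun X hX => one_set' hI a X s c e hs hsm (mem_filter.1 hX).2
      _ = _ := by rw [sum_const, smul_eq_mul]
  set P := (univ.filter fun π : Equiv.Perm (Hf m) =>
      ∃ X : Finset V, sz a X = s ∧ e ≤ eC a π X).card with hP
  have h2 : (m.choose e : ℝ) * P ≤ Ns * ((s.choose c : ℝ) * M) := by exact_mod_cast h1
  have h3 := hN V m a ha s y hy0 hy1
  have h4 := hB m e he h2e
  rw [← hy] at h4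
  rw [← hNs] at h3
  have hS : (0 : ℝ) ≤ (s.choose c : ℝ) * M := by positivity
  have h5 : (m.choose e : ℝ) * P ≤
      (y ^ (-(s : ℝ) / 3) * (1 + y) ^ ((2 : ℝ) * m / 3)) * ((s.choose c : ℝ) * M) :=
    h2.trans (mul_le_mul_of_nonneg_right h3 hS)
  have hy1' : (0 : ℝ) < 1 + y := by linarith
  have hpm : (0 : ℝ) < (1 + y) ^ m := by positivity
  have h6 : (1 + y) ^ m * ((m.choose e : ℝ) * P) ≤
      ((m + 1) * (m.choose e : ℝ) * y ^ e) *
      ((y ^ (-(s : ℝ) / 3) * (1 + y) ^ ((2 : ℝ) * m / 3)) * ((s.choose c : ℝ) * M)) := by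
    refine mul_le_mul h4 h5 (by positivity) (by positivity)
  have h7 : (P : ℝ) ≤ ((m + 1) * y ^ e) *
      ((y ^ (-(s : ℝ) / 3) * (1 + y) ^ ((2 : ℝ) * m / 3)) * ((s.choose c : ℝ) * M)) /
        (1 + y) ^ m := by
    rw [le_div_iff₀ hpm]
    have h8 : (m.choose e : ℝ) * (P * (1 + y) ^ m) ≤ (m.choose e : ℝ) * (((m + 1) * y ^ e) *
      ((y ^ (-(s : ℝ) / 3) * (1 + y) ^ ((2 : ℝ) * m / 3)) * ((s.choose c : ℝ) * M))) := by
      calc (m.choose e : ℝ) * (P * (1 + y) ^ m) = (1 + y) ^ m * ((m.choose e : ℝ) * P) := by ring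
        _ ≤ _ := h6
        _ = _ := by ring
    exact le_of_mul_le_mul_left h8 hc
  refine h7.trans (le_of_eq ?_)
  unfold bd
  rw [← hy]
  have e1 : y ^ ((e : ℝ) - s / 3) = y ^ e * y ^ (-(s : ℝ) / 3) := by
    rw [show (e : ℝ) - s / 3 = (e : ℝ) + (-(s : ℝ) / 3) by ring, Real.rpow_add hy0,
      Real.rpow_natCast]
  have e2 : (1 + y) ^ (-(m : ℝ) / 3) = (1 + y) ^ ((2 : ℝ) * m / 3) / (1 + y) ^ m := by
    rw [← Real.rpow_natCast (1 + y) m, ← Real.rpow_sub hy1']
    congr 1
    ring
  rw [e1, e2]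
  field_simp

end Pool.Agent.L0h85.RF
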