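import Pool.Agent.L0h98.RF.Def
import Pool.Agent.L0h47.GS.SPM

set_option autoImplicit false

/-!
# Project RF, module SML: small sets of vertices span at most one circuit
-/

namespace Pool.Agent.L0h85.RF

open Finset Classical
open Pool.Agent.L0h98.GS (Hf eC)
open Pool.Agent.N404.LF (cnt)
open Pool.Agent.L0h98.RF
open Pool.Agent.L0h47.GS (mpx mem_mpx mpx_card card_Hf pre_set)

/-- one set `U`, `e` inner edges -/
lemma sml_one {V : Type} {m : ℕ} (a : Hf m → V) (Δ : ℕ) (hΔ : ∀ v, cnt a v ≤ Δ) (U : Finset V)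
    (e : ℕ) :
    (2 * m) ^ (2 * e) * (univ.filter fun π : Equiv.Perm (Hf m) => e ≤ eC a π U).card ≤
    m.choose e * ((Δ * U.card) ^ (2 * e) * (2 * m).factorial) := by
  set T : Finset (Hf m) := univ.filter fun x => a x ∈ U with hT
  have hTc : T.card ≤ Δ * U.card := pre_set a Δ hΔ U
  have h1 : (univ.filter fun π : Equiv.Perm (Hf m) => e ≤ eC a π U) ⊆
      (powersetCard e (univ : Finset (Fin m))).biUnion fun S =>
        mpx (S ×ˢ (univ : Finset Bool)) T := by
    intro π hπ
    have hπ' := (mem_filter.1 hπ).2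
    unfold eC at hπ'
    obtain ⟨S, hS, hSc⟩ := exists_subset_card_eq hπ'
    rw [mem_biUnion]
    refine ⟨S, mem_powersetCard.2 ⟨subset_univ _, hSc⟩, (mem_mpx _ _ _).2 ?_⟩
    rintro ⟨i, b⟩ hp
    have h2 := (mem_filter.1 (hS (mem_product.1 hp).1)).2
    refine mem_filter.2 ⟨mem_univ _, ?_⟩
    cases b
    · exact h2.1
    · exact h2.2
  calc (2 * m) ^ (2 * e) * (univ.filter fun π : Equiv.Perm (Hf m) => e ≤ eC a π U).card
      ≤ (2 * m) ^ (2 * e) * ∑ S ∈ powersetCard e (univ : Finset (Fin m)),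
          (mpx (S ×ˢ (univ : Finset Bool)) T).card :=
        Nat.mul_le_mul_left _ ((card_le_card h1).trans card_biUnion_le)
    _ = ∑ S ∈ powersetCard e (univ : Finset (Fin m)), (2 * m) ^ (2 * e) *
          (mpx (S ×ˢ (univ : Finset Bool)) T).card := mul_sum _ _ _
    _ ≤ ∑ S ∈ powersetCard e (univ : Finset (Fin m)),
          (Δ * U.card) ^ (2 * e) * (2 * m).factorial := by
        refine sum_le_sum fun S hS => ?_
        have h3 := mpx_card (S ×ˢ (univ : Finset Bool)) T
        have h4 : (S ×ˢ (univ : Finset Bool)).card = 2 * e := by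
          rw [card_product, (mem_powersetCard.1 hS).2, card_univ, Fintype.card_bool]
          ring
        rw [h4, card_Hf] at h3
        exact h3.trans (Nat.mul_le_mul_right _ (Nat.pow_le_pow_left hTc _))
    _ = _ := by
        rw [sum_const, smul_eq_mul, card_powersetCard, card_univ, Fintype.card_fin]

/-- the sets with `u` elements -/
lemma sml_size {V : Type} [Fintype V] {m : ℕ} (a : Hf m → V) (Δ : ℕ) (h1a : ∀ v, 1 ≤ cnt a v)
    (hΔ : ∀ v, cnt a v ≤ Δ) (hm : 0 < m) (u : ℕ) :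
    m * (univ.filter fun π : Equiv.Perm (Hf m) => ∃ U : Finset V,
      U.card = u ∧ u < eC a π U).card ≤ (Δ * u) ^ (2 * (u + 1)) * (2 * m).factorial := by
  set B := (univ.filter fun π : Equiv.Perm (Hf m) => ∃ U : Finset V,
      U.card = u ∧ u < eC a π U).card with hB
  set M := (2 * m).factorial with hM
  have hV : Fintype.card V ≤ 2 * m := by
    rw [← card_Hf m]
    refine Fintype.card_le_of_surjective a fun v => ?_
    have h1 := h1a v
    unfold cnt at h1
    obtain ⟨x, hx⟩ := card_pos.1 (lt_of_lt_of_le Nat.one_pos h1)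
    exact ⟨x, (mem_filter.1 hx).2⟩
  have h1 : B ≤ ∑ U ∈ powersetCard u (univ : Finset V),
      (univ.filter fun π : Equiv.Perm (Hf m) => u + 1 ≤ eC a π U).card := by
    rw [hB]
    refine (card_le_card ?_).trans card_biUnion_le
    intro π hπ
    obtain ⟨U, hU, hU2⟩ := (mem_filter.1 hπ).2
    rw [mem_biUnion]
    exact ⟨U, mem_powersetCard.2 ⟨subset_univ _, hU⟩, mem_filter.2 ⟨mem_univ _, hU2⟩⟩
  have h2 : (2 * m) ^ (2 * (u + 1)) * B ≤ (Fintype.card V).choose u *
      (m.choose (u + 1) * ((Δ * u) ^ (2 * (u + 1)) * M)) := by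
    calc (2 * m) ^ (2 * (u + 1)) * B ≤ (2 * m) ^ (2 * (u + 1)) *
          ∑ U ∈ powersetCard u (univ : Finset V),
        (univ.filter fun π : Equiv.Perm (Hf m) => u + 1 ≤ eC a π U).card :=
          Nat.mul_le_mul_left _ h1
      _ = ∑ U ∈ powersetCard u (univ : Finset V), (2 * m) ^ (2 * (u + 1)) *
        (univ.filter fun π : Equiv.Perm (Hf m) => u + 1 ≤ eC a π U).card :=
          mul_sum _ _ _
      _ ≤ ∑ U ∈ powersetCard u (univ : Finset V),
            (m.choose (u + 1) * ((Δ * u) ^ (2 * (u + 1)) * M)) := by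
          refine sum_le_sum fun U hU => ?_
          have h3 := sml_one a Δ hΔ U (u + 1)
          rw [(mem_powersetCard.1 hU).2] at h3
          exact h3
      _ = _ := by
          rw [sum_const, smul_eq_mul, card_powersetCard, card_univ]
  have h3 : (Fintype.card V).choose u ≤ (2 * m) ^ u :=
    (Nat.choose_le_pow _ _).trans (Nat.pow_le_pow_left hV _)
  have h4 : m.choose (u + 1) ≤ (2 * m) ^ (u + 1) :=
    (Nat.choose_le_pow _ _).trans (Nat.pow_le_pow_left (by omega) _)
  have h5 : (2 * m) ^ (2 * u + 1) * ((2 * m) * B) ≤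
      (2 * m) ^ (2 * u + 1) * ((Δ * u) ^ (2 * (u + 1)) * M) := by
    calc (2 * m) ^ (2 * u + 1) * ((2 * m) * B) = (2 * m) ^ (2 * (u + 1)) * B := by ring
      _ ≤ _ := h2
      _ ≤ (2 * m) ^ u * ((2 * m) ^ (u + 1) * ((Δ * u) ^ (2 * (u + 1)) * M)) :=
          Nat.mul_le_mul h3 (Nat.mul_le_mul_right _ h4)
      _ = _ := by ring
  have h6 := Nat.le_of_mul_le_mul_left h5 (by positivity)
  calc m * B ≤ (2 * m) * B := Nat.mul_le_mul_right _ (by omega)
    _ ≤ _ := h6

theorem t_SML : S_SML := by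
  intro Δ K
  refine ⟨(K + 1) * (Δ * K + 1) ^ (2 * (K + 1)), 1, fun V _ m a hm h1a hΔ => ?_⟩
  set M := (2 * m).factorial with hM
  have h1 : (univ.filter fun π : Equiv.Perm (Hf m) =>
      ∃ X : Finset V, X.card ≤ K ∧ X.card < eC a π X).card ≤
      ∑ u ∈ range (K + 1), (univ.filter fun π : Equiv.Perm (Hf m) =>
        ∃ U : Finset V, U.card = u ∧ u < eC a π U).card := by
    refine (card_le_card (t := (range (K + 1)).biUnion fun u =>
      (univ.filter fun π : Equiv.Perm (Hf m) =>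
        ∃ U : Finset V, U.card = u ∧ u < eC a π U)) ?_).trans
      card_biUnion_le
    intro π hπ
    obtain ⟨U, hU, hU1⟩ := (mem_filter.1 hπ).2
    rw [mem_biUnion]
    exact ⟨U.card, mem_range.2 (by omega), mem_filter.2 ⟨mem_univ _, U, rfl, hU1⟩⟩
  calc m * (univ.filter fun π : Equiv.Perm (Hf m) =>
      ∃ X : Finset V, X.card ≤ K ∧ X.card < eC a π X).card
      ≤ m * ∑ u ∈ range (K + 1), (univ.filter fun π : Equiv.Perm (Hf m) =>
        ∃ U : Finset V, U.card = u ∧ u < eC a π U).card := Nat.mul_le_mul_left _ h1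
    _ = ∑ u ∈ range (K + 1), m * (univ.filter fun π : Equiv.Perm (Hf m) =>
        ∃ U : Finset V, U.card = u ∧ u < eC a π U).card := mul_sum _ _ _
    _ ≤ ∑ u ∈ range (K + 1), (Δ * K + 1) ^ (2 * (K + 1)) * M := by
        refine sum_le_sum fun u hu => ?_
        have hu' : u ≤ K := by
          have := mem_range.1 hu
          omega
        refine (sml_size a Δ h1a hΔ (by omega) u).trans (Nat.mul_le_mul_right _ ?_)
        calc (Δ * u) ^ (2 * (u + 1)) ≤ (Δ * K + 1) ^ (2 * (u + 1)) :=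
              Nat.pow_le_pow_left ((Nat.mul_le_mul_left _ hu').trans (Nat.le_succ _)) _
          _ ≤ (Δ * K + 1) ^ (2 * (K + 1)) := Nat.pow_le_pow_right (Nat.succ_pos _) (by omega)
    _ = (K + 1) * (Δ * K + 1) ^ (2 * (K + 1)) * M := by
        rw [sum_const, smul_eq_mul, card_range, mul_assoc]

end Pool.Agent.L0h85.RF
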